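import Pool.Agent.H776R3.GapVol.Riemann
import Pool.Agent.W120.VC.Tet

/-!
# Project VV, leaf N1: numerical bounds of Lobachevsky's function at pi/4 and pi/3
-/

set_option autoImplicit false

namespace Pool.Agent.N767.VV

/-- comparison principle -/
lemma cmp (f f' : ℝ → ℝ) (b : ℝ) (hb : 0 ≤ b) (hf : Continuous f)
    (hd : ∀ x, 0 < x → x < b → HasDerivAt f (f' x) x) (hn : ∀ x, 0 < x → x < b → 0 ≤ f' x) :
    f 0 ≤ f b := by
  have h : MonotoneOn f (Set.Icc 0 b) := by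
    apply monotoneOn_of_deriv_nonneg (convex_Icc 0 b) hf.continuousOn
    · rw [interior_Icc]
      intro x hx
      exact (hd x hx.1 hx.2).differentiableAt.differentiableWithinAt
    · rw [interior_Icc]
      intro x hx
      rw [(hd x hx.1 hx.2).deriv]
      exact hn x hx.1 hx.2
  exact h (Set.left_mem_Icc.2 hb) (Set.right_mem_Icc.2 hb) hb

lemma dpow (n : ℕ) (c x : ℝ) : HasDerivAt (fun x : ℝ => c * x ^ n) (c * (n * x ^ (n - 1))) x :=
  (hasDerivAt_pow n x).const_mul c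

lemma sin_lo (x : ℝ) (hx : 0 ≤ x) : x - x ^ 3 / 6 ≤ Real.sin x := by
  have h := cmp (fun x => Real.sin x - 1 * x ^ 1 + 1 / 6 * x ^ 3)
    (fun x => Real.cos x - 1 * ((1 : ℕ) * x ^ (1 - 1)) + 1 / 6 * ((3 : ℕ) * x ^ (3 - 1))) x hx
    (by fun_prop)
    (fun t _ _ => ((Real.hasDerivAt_sin t).sub (dpow 1 1 t)).add (dpow 3 (1 / 6) t))
    (fun t _ _ => by
      have := Real.one_sub_sq_div_two_le_cos (x := t)
      norm_num
      linarith)
  norm_num at h
  linarith

lemma cos_hi (x : ℝ) (hx : 0 ≤ x) : Real.cos x ≤ 1 - x ^ 2 / 2 + x ^ 4 / 24 := by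
  have h := cmp (fun x => -Real.cos x - 1 / 2 * x ^ 2 + 1 / 24 * x ^ 4)
    (fun x => -(-Real.sin x) - 1 / 2 * ((2 : ℕ) * x ^ (2 - 1)) + 1 / 24 * ((4 : ℕ) * x ^ (4 - 1)))
    x hx (by fun_prop)
    (fun t _ _ => ((Real.hasDerivAt_cos t).neg.sub (dpow 2 (1 / 2) t)).add (dpow 4 (1 / 24) t))
    (fun t ht _ => by
      have := sin_lo t ht.le
      norm_num
      linarith)
  norm_num at h
  linarith

lemma sin_hi (x : ℝ) (hx : 0 ≤ x) : Real.sin x ≤ x - x ^ 3 / 6 + x ^ 5 / 120 := by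
  have h := cmp (fun x => -Real.sin x + 1 * x ^ 1 - 1 / 6 * x ^ 3 + 1 / 120 * x ^ 5)
    (fun x => -Real.cos x + 1 * ((1 : ℕ) * x ^ (1 - 1)) - 1 / 6 * ((3 : ℕ) * x ^ (3 - 1)) +
      1 / 120 * ((5 : ℕ) * x ^ (5 - 1))) x hx
    (by fun_prop)
    (fun t _ _ => (((Real.hasDerivAt_sin t).neg.add (dpow 1 1 t)).sub (dpow 3 (1 / 6) t)).add
      (dpow 5 (1 / 120) t))
    (fun t ht _ => by
      have := cos_hi t ht.le
      norm_num
      linarith)
  norm_num at h
  linarith

/-- lower bound -/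
lemma lob_lo (x : ℝ) (hx : 0 ≤ x) (hx1 : x ≤ 3) :
    x - x * Real.log x - x * Real.log 2 + x ^ 3 / 18 - x ^ 5 / 600 ≤ GapVol.lob x := by
  have hc : Continuous GapVol.lob := GapVol.lob_cont
  have hc2 := Real.continuous_mul_log
  have h := cmp (fun x => GapVol.lob x - 1 * x ^ 1 + x * Real.log x + Real.log 2 * x ^ 1 -
      1 / 18 * x ^ 3 + 1 / 600 * x ^ 5)
    (fun x => -Real.log (2 * Real.sin x) - 1 * ((1 : ℕ) * x ^ (1 - 1)) + (Real.log x + 1) +
      Real.log 2 * ((1 : ℕ) * x ^ (1 - 1)) - 1 / 18 * ((3 : ℕ) * x ^ (3 - 1)) +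
      1 / 600 * ((5 : ℕ) * x ^ (5 - 1))) x hx
    (by fun_prop)
    (fun t ht ht' => (((((Pool.Agent.W120.VC.lob_deriv ht (by linarith [Real.pi_gt_three])).sub
      (dpow 1 1 t)).add (Real.hasDerivAt_mul_log ht.ne')).add (dpow 1 (Real.log 2) t)).sub
      (dpow 3 (1 / 18) t)).add (dpow 5 (1 / 600) t))
    (fun t ht ht' => by
      have hs : 0 < Real.sin t := Real.sin_pos_of_pos_of_lt_pi ht (by linarith [Real.pi_gt_three])
      have h1 := sin_hi t ht.le
      have h2 : Real.log (Real.sin t / t) ≤ Real.sin t / t - 1 :=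
        Real.log_le_sub_one_of_pos (by positivity)
      have h3 : Real.sin t / t ≤ 1 - t ^ 2 / 6 + t ^ 4 / 120 := by
        rw [div_le_iff₀ ht]
        linarith
      rw [Real.log_div hs.ne' ht.ne'] at h2
      rw [Real.log_mul (by norm_num) hs.ne']
      norm_num
      linarith)
  norm_num [GapVol.lob_zero] at h
  linarith

/-- upper bound -/
lemma lob_hi (x : ℝ) (hx : 0 ≤ x) (hx1 : x ≤ 53 / 100) :
    GapVol.lob x ≤ x - x * Real.log x - x * Real.log 2 + 7 * x ^ 3 / 120 := by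
  have hc : Continuous GapVol.lob := GapVol.lob_cont
  have hc2 := Real.continuous_mul_log
  have h := cmp (fun x => -GapVol.lob x + 1 * x ^ 1 - x * Real.log x - Real.log 2 * x ^ 1 +
      7 / 120 * x ^ 3)
    (fun x => -(-Real.log (2 * Real.sin x)) + 1 * ((1 : ℕ) * x ^ (1 - 1)) - (Real.log x + 1) -
      Real.log 2 * ((1 : ℕ) * x ^ (1 - 1)) + 7 / 120 * ((3 : ℕ) * x ^ (3 - 1))) x hx
    (by fun_prop)
    (fun t ht ht' => (((((Pool.Agent.W120.VC.lob_deriv ht (by linarith [Real.pi_gt_three])).neg.add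
      (dpow 1 1 t)).sub (Real.hasDerivAt_mul_log ht.ne')).sub (dpow 1 (Real.log 2) t)).add
      (dpow 3 (7 / 120) t)))
    (fun t ht ht' => by
      have hs : 0 < Real.sin t := Real.sin_pos_of_pos_of_lt_pi ht (by linarith [Real.pi_gt_three])
      have h1 := sin_lo t ht.le
      have h2 : Real.log (t / Real.sin t) ≤ t / Real.sin t - 1 :=
        Real.log_le_sub_one_of_pos (by positivity)
      have h3 : t / Real.sin t ≤ 1 + 7 * t ^ 2 / 40 := by
        rw [div_le_iff₀ hs]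
        have h4 : (1 + 7 * t ^ 2 / 40) * (t - t ^ 3 / 6) ≤ (1 + 7 * t ^ 2 / 40) * Real.sin t :=
          mul_le_mul_of_nonneg_left h1 (by positivity)
        refine le_trans ?_ h4
        have h5 : 0 ≤ t ^ 3 * (2 - 7 * t ^ 2) := by
          refine mul_nonneg (by positivity) ?_
          nlinarith
        nlinarith [h5]
      rw [Real.log_div ht.ne' hs.ne'] at h2
      rw [Real.log_mul (by norm_num) hs.ne']
      norm_num
      linarith)
  norm_num [GapVol.lob_zero] at h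
  linarith

/-- `log (π / 2)` from above -/
lemma log_pi_hi : 3 * Real.log (Real.pi / 2) ≤ 2 * Real.log 2 + (Real.pi ^ 3 / 32 - 1) := by
  have hp := Real.pi_pos
  have h1 : Real.log (Real.pi ^ 3 / 32) ≤ Real.pi ^ 3 / 32 - 1 :=
    Real.log_le_sub_one_of_pos (by positivity)
  have h2 : Real.log (Real.pi ^ 3 / 32) = 3 * Real.log Real.pi - 5 * Real.log 2 := by
    rw [Real.log_div (by positivity) (by norm_num), Real.log_pow,
      show (32 : ℝ) = 2 ^ 5 by norm_num, Real.log_pow]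
    norm_num
  rw [Real.log_div hp.ne' (by norm_num)]
  linarith

lemma lob_quarter : (4569 / 10000 : ℝ) ≤ GapVol.lob (Real.pi / 4) := by
  have hp1 := Real.pi_gt_d4
  have hp2 := Real.pi_lt_d4
  have hp := Real.pi_pos
  have h1 := lob_lo (Real.pi / 4) (by positivity) (by linarith)
  have h2 := log_pi_hi
  have h3 := Real.log_two_lt_d9
  have h4 : Real.log (Real.pi / 4) + Real.log 2 = Real.log (Real.pi / 2) := by
    rw [← Real.log_mul (by positivity) (by norm_num)]
    congr 1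
    ring
  have h5 : Real.pi ^ 3 ≤ 310066 / 10000 := by
    calc Real.pi ^ 3 ≤ 3.1416 ^ 3 := pow_le_pow_left₀ hp.le hp2.le 3
      _ ≤ _ := by norm_num
  have h6 : Real.pi ^ 5 ≤ 306024 / 1000 := by
    calc Real.pi ^ 5 ≤ 3.1416 ^ 5 := pow_le_pow_left₀ hp.le hp2.le 5
      _ ≤ _ := by norm_num
  have h7 : 310035 / 10000 ≤ Real.pi ^ 3 := by
    calc (310035 / 10000 : ℝ) ≤ 3.1415 ^ 3 := by norm_num
      _ ≤ _ := pow_le_pow_left₀ (by norm_num) hp1.le 3
  have h8 : Real.log (Real.pi / 2) ≤ 45176 / 100000 := by linarith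
  have h9 : 0 ≤ (Real.pi / 4) * (45176 / 100000 - Real.log (Real.pi / 2)) :=
    mul_nonneg (by positivity) (by linarith)
  have e1 : Real.pi / 4 - Real.pi / 4 * Real.log (Real.pi / 4) - Real.pi / 4 * Real.log 2 =
      Real.pi / 4 * (1 - Real.log (Real.pi / 2)) := by
    rw [← h4]
    ring
  rw [e1] at h1
  have e2 : (Real.pi / 4) ^ 3 = Real.pi ^ 3 / 64 := by ring
  have e3 : (Real.pi / 4) ^ 5 = Real.pi ^ 5 / 1024 := by ring
  rw [e2, e3] at h1
  nlinarith

lemma lob_sixth : GapVol.lob (Real.pi / 6) ≤ 50839 / 100000 := by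
  have hp1 := Real.pi_gt_d4
  have hp2 := Real.pi_lt_d4
  have hp := Real.pi_pos
  have h1 := lob_hi (Real.pi / 6) (by positivity) (by linarith)
  have h4 : Real.log (Real.pi / 6) + Real.log 2 = -Real.log (3 / Real.pi) := by
    rw [← Real.log_mul (by positivity) (by norm_num), ← Real.log_inv]
    congr 1
    field_simp
    norm_num
  have h2 : Real.log (3 / Real.pi) ≤ 3 / Real.pi - 1 :=
    Real.log_le_sub_one_of_pos (by positivity)
  have h5 : Real.pi ^ 3 ≤ 310066 / 10000 := by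
    calc Real.pi ^ 3 ≤ 3.1416 ^ 3 := pow_le_pow_left₀ hp.le hp2.le 3
      _ ≤ _ := by norm_num
  have e1 : Real.pi / 6 - Real.pi / 6 * Real.log (Real.pi / 6) - Real.pi / 6 * Real.log 2 =
      Real.pi / 6 * (1 + Real.log (3 / Real.pi)) := by
    have : Real.log (3 / Real.pi) = -(Real.log (Real.pi / 6) + Real.log 2) := by linarith
    rw [this]
    ring
  rw [e1] at h1
  have h6 : Real.pi / 6 * (1 + Real.log (3 / Real.pi)) ≤ Real.pi / 6 * (3 / Real.pi) :=
    mul_le_mul_of_nonneg_left (by linarith) (by positivity)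
  have h7 : Real.pi / 6 * (3 / Real.pi) = 1 / 2 := by
    field_simp
    norm_num
  have e2 : (Real.pi / 6) ^ 3 = Real.pi ^ 3 / 216 := by ring
  rw [e2] at h1
  linarith

theorem s_n1 : (9 / 20 : ℝ) ≤ GapVol.lob (Real.pi / 4) ∧
    (17 / 100 : ℝ) + 21 * GapVol.lob (Real.pi / 3) ≤ 16 * GapVol.lob (Real.pi / 4) := by
  have h1 := lob_quarter
  have h2 := lob_sixth
  have h3 := GapVol.lob_dup
  constructor
  · linarith
  · linarith

end Pool.Agent.N767.VV
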